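import Pool.Agent.Helper73.DC.St6

set_option autoImplicit false

namespace Pool.Agent.Helper62.DC

open Pool.Agent.Helper73.DC
open Finset
open scoped Classical

theorem ev_det {lf cl : ℕ → ℕ} {rs : ℕ → ℕ → ℕ} {wt : ℕ → ℕ} {x r m n : ℕ}
    (h : Ev lf cl rs wt x r m n) : ∀ r' m' n', Ev lf cl rs wt x r' m' n' → r = r' := by
  induction h with
  | leaf x r hx =>
    intro r' m' n' h'
    cases h' with
    | leaf _ _ hx' => omega
    | node _ _ _ _ _ _ _ hx' _ _ => omega
  | node x r1 m1 n1 r2 m2 n2 hx h1 h2 ih1 ih2 =>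
    intro r' m' n' h'
    cases h' with
    | leaf _ _ hx' => omega
    | node _ r1' m1' n1' _ m2' n2' hx' h1' h2' =>
      have e1 := ih1 _ _ _ h1'
      subst e1
      exact ih2 _ _ _ h2'

theorem sp_ne {D kk : ℕ} {cl : ℕ → ℕ} {rs : ℕ → ℕ → ℕ} {f : ℕ → ℕ} {x : ℕ} (h : f x ≠ 0) :
    SP D kk cl rs f x ≠ 0 := by
  unfold SP
  rw [if_pos h]
  exact h

theorem mA4 : StSS → StSC → StA4 := by
  intro hSS hSC lf cl rs wt f0 D kk k R c h1 h2 h3 h4 h5 h6 h7
  have hA : ∀ r x, lf x ≠ 0 → (SP D kk cl rs)^[r] f0 x ≠ 0 := by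
    intro r
    induction r with
    | zero => exact h1
    | succ r ih =>
      intro x hx
      rw [Function.iterate_succ_apply']
      exact sp_ne (ih x hx)
  have hB : ∀ r x ρ, (SP D kk cl rs)^[r] f0 x = ρ + 1 → ∃ m n, Ev lf cl rs wt x ρ m n := by
    intro r
    induction r with
    | zero => exact h2
    | succ r ih =>
      intro x ρ hx
      rw [Function.iterate_succ_apply'] at hx
      exact hSS lf cl rs wt _ D kk (hA r) ih x ρ hx
  have hC : ∀ r x ρ m n, x < D → Ev lf cl rs wt x ρ m n → m < k ^ r →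
      (SP D kk cl rs)^[r] f0 x ≠ 0 := by
    intro r
    induction r with
    | zero =>
      intro x ρ m n _ he hm
      rw [pow_zero] at hm
      have hm0 : m = 0 := by omega
      subst hm0
      exact h3 x ρ n he
    | succ r ih =>
      intro x ρ m n hx he hm
      rw [Function.iterate_succ_apply']
      rw [pow_succ'] at hm
      exact hSC lf cl rs wt _ D kk k (k ^ r) (hA r) (hB r) h4 h5 ih x ρ m n hx he hm
  constructor
  · intro h
    exact hB R c 0 h
  · rintro ⟨m, n, he⟩
    have hne := hC R c 0 m n h6 he (h7 m n he)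
    obtain ⟨ρ, hρ⟩ := Nat.exists_eq_succ_of_ne_zero hne
    obtain ⟨m', n', he'⟩ := hB R c ρ hρ
    have := ev_det he _ _ _ he'
    subst this
    exact hρ

end Pool.Agent.Helper62.DC
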